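import Mathlib
import Pool.Agent.U409.SH.Avg2
import Pool.Agent.U214.RM.Main
import Pool.Agent.U214.GT.Comb

/-!
# All moments over the coprime pairs, forms with multiplicities
-/

set_option autoImplicit false

namespace Pool.Agent.U214.T6

open Finset Pool.Agent.W262.RK Pool.Agent.W307.RT Pool.Agent.U214.RM
open Pool.Agent.W762.RK2 (wc)
open Pool.Agent.U409.SH (qq rank2')
open Pool.Agent.W230.RT (kapM_ne gd_fv)

variable {J : Type} [Fintype J] [DecidableEq J]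

/-- the condition for the exponent `e` of the logarithm, for `n_k` forms in the class `k` -/
structure ExJ (r : ℕ) (cls : J → Fin 4) (e : ℝ) : Prop where
  nn : 0 ≤ e
  h0 : ((2 : ℝ) ^ r - 1) * (((univ.filter (fun j => cls j = 0)).card : ℝ) -
    (((univ.filter (fun j => cls j = 1)).card : ℝ) + (univ.filter (fun j => cls j = 2)).card) /
      2 ^ r) ≤ e
  h1 : ((2 : ℝ) ^ r - 1) * (((univ.filter (fun j => cls j = 1)).card : ℝ) -
    (((univ.filter (fun j => cls j = 0)).card : ℝ) + (univ.filter (fun j => cls j = 2)).card) /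
      2 ^ r) ≤ e
  h2 : ((2 : ℝ) ^ r - 1) * (((univ.filter (fun j => cls j = 2)).card : ℝ) -
    (((univ.filter (fun j => cls j = 0)).card : ℝ) + (univ.filter (fun j => cls j = 1)).card) /
      2 ^ r) ≤ e

/-- the average of the power, unequal numbers -/
theorem ma_U {r : ℕ} (hr : 1 ≤ r) (cls : J → Fin 4) (κ : J → Fin 3 → ℤ) (c : ℕ) {e : ℝ}
    (hE : ExJ r cls e) (hκ : ∀ j k, κ j k ≠ 0) :
    ∃ z0 : ℕ, ∀ z, z0 ≤ z → ∃ C : ℝ, ∀ y, z < y →
      ∑ s ∈ Tup J z y, NBr r cls κ s * ∏ j, gw 1 c (s j) ≤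
        C * (Real.log y) ^ ((Fintype.card J : ℝ) + e) := by
  obtain ⟨z0, hz0⟩ := at_thm (Ir r cls) (w_r cls) (L_r cls) (κ_r cls κ) c
    ((Fintype.card J : ℝ) + e) (w_r_bd hr cls) (L_r_self cls)
    (fun i => kr_ne _ (hκ _) _ _) (fun U hU => by
      have h1 := Pool.Agent.U214.GT.comb_m (r := r) (cls := cls) (M := fun _ => (1 : ℝ))
        (fun _ => zero_le_one) (n0 := ((univ.filter (fun j => cls j = 0)).card : ℝ))
        (n1 := ((univ.filter (fun j => cls j = 1)).card : ℝ))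
        (n2 := ((univ.filter (fun j => cls j = 2)).card : ℝ)) (by simp) (by simp) (by simp)
        hE.nn hE.h0 hE.h1 hE.h2 hU
      simpa using h1)
  refine ⟨max z0 (∑ j, ∑ k, (κ j k).natAbs), fun z hz => ?_⟩
  obtain ⟨C, hC⟩ := hz0 z (le_trans (le_max_left _ _) hz)
  refine ⟨C, fun y hy => ?_⟩
  have hz2 : ∑ j, ∑ k, (κ j k).natAbs ≤ z := le_trans (le_max_right _ _) hz
  rw [exp_r J cls κ r c z y hκ (fun j k => by
    have h1 := single_le_sum (f := fun k => (κ j k).natAbs) (fun _ _ => Nat.zero_le _) (mem_univ k)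
    have h2 := single_le_sum (f := fun j => ∑ k, (κ j k).natAbs) (fun _ _ => Nat.zero_le _)
      (mem_univ j)
    omega)]
  exact le_trans (le_abs_self _) (hC y hy)

lemma nbr_eq {r : ℕ} {cls : J → Fin 4} (hcls : ∀ j, cls j ≠ 3) (κ : J → Fin 3 → ℤ) (s : J → ℕ) :
    NBr r cls κ s = (NL (∏ j, s j) (LLs cls κ s ∅) : ℝ) ^ r := by
  have h : P3 cls s = ∅ := by
    unfold P3
    rw [filter_false_of_mem (fun j _ => hcls j), prod_empty, Nat.primeFactors_one]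
  unfold NBr
  rw [h, card_empty, pow_zero, one_mul, powerset_empty, sum_singleton]

/-- **the moments over the coprime pairs** -/
theorem avgR {r : ℕ} (hr : 1 ≤ r) (cls : J → Fin 4) (a : Fin 3 → ℤ)
    (μ : J → ℕ) (α β : J → ℤ) (hcls : ∀ j, cls j ≠ 3) (ha : ∀ k, a k ≠ 0) (hμ : ∀ j, 1 ≤ μ j)
    (hα : ∀ j, α j ≠ 0) (hR : ∀ j l, j ≠ l → Res α β j l ≠ 0)
    (hev : ∀ k, Even (∑ l ∈ fc cls k, μ l)) (hodd : ∀ j, Odd (μ j) ∨ IsSquare (kapM cls a μ α β j))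
    (hF : ∀ u v : ℤ, FM cls a μ (fv α β u v) 0 - FM cls a μ (fv α β u v) 1 =
      FM cls a μ (fv α β u v) 2) {e : ℝ} (hE : ExJ r cls e) :
    ∃ C : ℝ, ∀ X : ℕ, 1 ≤ X → ∑ t ∈ (Icc 1 X ×ˢ Icc 1 X).filter (fun t : ℕ × ℕ =>
      t.1.Coprime t.2 ∧ ∀ j, fv α β (t.1 : ℤ) (t.2 : ℤ) j ≠ 0),
      (qq (FM cls a μ (fv α β (t.1 : ℤ) (t.2 : ℤ)) 0)
        (FM cls a μ (fv α β (t.1 : ℤ) (t.2 : ℤ)) 1) : ℝ) ^ r ≤
        C * ((X : ℝ) ^ 2 * (1 + Real.log X) ^ e) := by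
  classical
  obtain ⟨κ, hκdef⟩ : ∃ κ : J → Fin 3 → ℤ, κ = fun j _ => kapM cls a μ α β j := ⟨_, rfl⟩
  have hκ0' : ∀ j, kapM cls a μ α β j ≠ 0 := kapM_ne ha hR
  have hκ0 : ∀ j k, κ j k ≠ 0 := fun j k => by rw [hκdef]; exact hκ0' j
  obtain ⟨N, hN⟩ : ∃ N, N = Fintype.card J := ⟨_, rfl⟩
  obtain ⟨z0, hz0⟩ := ma_U hr cls κ N hE hκ0
  obtain ⟨z, hz⟩ : ∃ z : ℕ, z = z0 + (2 * N + 2) + ∑ k, (a k).natAbs + ∑ j, (α j).natAbs +
    ∑ j, ∑ l, (Res α β j l).natAbs + ∑ j, (kapM cls a μ α β j).natAbs := ⟨_, rfl⟩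
  have hB : Bg α β z := by
    refine ⟨by omega, fun p hp hzp => ⟨fun j h => ?_, fun j l hjl h => ?_⟩⟩
    · have h1 := Nat.le_of_dvd (Int.natAbs_pos.2 (hα j)) (Int.natCast_dvd.1 h)
      have h2 := single_le_sum (f := fun j => (α j).natAbs) (fun _ _ => Nat.zero_le _) (mem_univ j)
      omega
    · have h1 := Nat.le_of_dvd (Int.natAbs_pos.2 (hR j l hjl)) (Int.natCast_dvd.1 h)
      have h2 := single_le_sum (f := fun l => (Res α β j l).natAbs) (fun _ _ => Nat.zero_le _)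
        (mem_univ l)
      have h3 := single_le_sum (f := fun j => ∑ l, (Res α β j l).natAbs) (fun _ _ => Nat.zero_le _)
        (mem_univ j)
      omega
  have hpa : ∀ p : ℕ, p.Prime → z < p → ∀ k, ¬ (p : ℤ) ∣ a k := by
    intro p hp hzp k h
    have h1 := Nat.le_of_dvd (Int.natAbs_pos.2 (ha k)) (Int.natCast_dvd.1 h)
    have h2 := single_le_sum (f := fun k => (a k).natAbs) (fun _ _ => Nat.zero_le _) (mem_univ k)
    omega
  have hκz' : ∀ j, (kapM cls a μ α β j).natAbs ≤ z := by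
    intro j
    have h2 := single_le_sum (f := fun j => (kapM cls a μ α β j).natAbs)
      (fun _ _ => Nat.zero_le _) (mem_univ j)
    omega
  have hκz : ∀ j k, (κ j k).natAbs ≤ z := fun j k => by rw [hκdef]; exact hκz' j
  have hz2 : 2 ≤ z := by omega
  have hzN : 2 * N + 2 ≤ z := by omega
  obtain ⟨C', hC'⟩ := hz0 z (by omega)
  obtain ⟨C, K, y0, hC0, hK1, hcn⟩ := Pool.Agent.W29.RT.cnt2_of Pool.Agent.W340.RT.SVR2.svr2
    Pool.Agent.W216.RT.AVH.avh J α β z hB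
  obtain ⟨y1, hy1⟩ : ∃ y1 : ℕ, y1 = y0 + ∑ j, ((α j).natAbs + (β j).natAbs) + 1 := ⟨_, rfl⟩
  obtain ⟨Q, hQ⟩ : ∃ Q : ℝ, Q = (4 : ℝ) ^ r := ⟨_, rfl⟩
  have hQ0 : 0 ≤ Q := by rw [hQ]; positivity
  obtain ⟨D, hD⟩ : ∃ D : ℝ, D = ((16 : ℝ) ^ N) ^ r := ⟨_, rfl⟩
  have hD1 : 1 ≤ D := by rw [hD]; exact one_le_pow₀ (one_le_pow₀ (by norm_num))
  have hlogD : 0 ≤ Real.log D := Real.log_nonneg hD1
  have hzN' : 2 * Fintype.card J + 2 ≤ z := by rw [← hN]; exact hzN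
  obtain ⟨E, hE0, hEb⟩ := bracketQ hQ0 J z (16 * (Real.log D + 1)) hzN' (by linarith)
  refine antW (f := fun (t : ℕ × ℕ) (j : J) => fv α β (t.1 : ℤ) (t.2 : ℤ) j)
    (T := fun X => (Icc 1 X ×ˢ Icc 1 X).filter (fun t : ℕ × ℕ =>
      t.1.Coprime t.2 ∧ ∀ j, fv α β (t.1 : ℤ) (t.2 : ℤ) j ≠ 0))
    (S := fun X => (X : ℝ) ^ 2) (G := fun _ s => NBr r cls κ s)
    (R := fun t : ℕ × ℕ => (qq (FM cls a μ (fv α β (t.1 : ℤ) (t.2 : ℤ)) 0)
        (FM cls a μ (fv α β (t.1 : ℤ) (t.2 : ℤ)) 1) : ℝ) ^ r)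
    (C := C * (4 ^ (z + 2)) ^ r) (D := D) (A1 := E * |C'|) (Q := Q) (κ := e)
    (K := K) (y0 := y1) Pool.Agent.W358.RK2.gr hzN'
    (fun X hX => one_le_pow₀ (by exact_mod_cast hX))
    (fun X t ht => ?_) (fun y s => NBr_nonneg r cls κ s) (fun t => by positivity) (by positivity)
    hD1 hK1 hQ0 hE.nn (fun y hy => ?_) ?_
  · rw [mem_filter] at ht
    exact gd_fv hB ht.2.1 ht.2.2
  · have hy3 : 3 ≤ y := by omega
    have hyr : (3 : ℝ) ≤ y := by exact_mod_cast hy3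
    have hl1 : 1 < Real.log y := by
      rw [Real.lt_log_iff_exp_lt (by linarith)]
      have := Real.exp_one_lt_d9
      linarith
    have hδ : 0 ≤ 16 * (Real.log D + 1) / Real.log y := div_nonneg (by linarith) (by linarith)
    have hm := main_ineqQ hQ0 J z y (NBr r cls κ) (16 * (Real.log D + 1) / Real.log y) N
      (by omega) hδ (NBr_nonneg r cls κ)
      (fun s e hse => by
        rw [hQ]
        exact subb_r Pool.Agent.W125.RK2.sub4 Pool.Agent.W342.RK2.xcl r J cls κ z y hz2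
          hκ0 hκz s e hse)
    rw [hN] at hm
    refine hm.trans ?_
    rw [← hN]
    have hn0 : 0 ≤ ∑ s ∈ Tup J z y, NBr r cls κ s * ∏ j, gw 1 N (s j) := by
      refine sum_nonneg fun s hs => mul_nonneg (NBr_nonneg r cls κ s) (prod_nonneg fun j _ => ?_)
      exact gw_nn (by omega) hs j
    have h1 : ∑ s ∈ Tup J z y, NBr r cls κ s * ∏ j, gw 1 N (s j) ≤
        |C'| * ((1 + Real.log y) ^ e * (Real.log y) ^ N) := by
      refine (hC' y hy).trans ?_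
      rw [← hN, Real.rpow_add (by linarith), Real.rpow_natCast]
      have e1 : (Real.log y) ^ e ≤ (1 + Real.log y) ^ e :=
        Real.rpow_le_rpow (by linarith) (by linarith) hE.nn
      have e2 : 0 ≤ (Real.log y) ^ N * (Real.log y) ^ e := by positivity
      calc C' * ((Real.log y) ^ N * (Real.log y) ^ e)
          ≤ |C'| * ((Real.log y) ^ N * (Real.log y) ^ e) :=
            mul_le_mul_of_nonneg_right (le_abs_self _) e2
        _ ≤ |C'| * ((Real.log y) ^ N * (1 + Real.log y) ^ e) :=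
            mul_le_mul_of_nonneg_left (mul_le_mul_of_nonneg_left e1 (by positivity))
              (abs_nonneg _)
        _ = _ := by ring
    have h2 := hEb y hy
    rw [← hN] at h2
    calc _ ≤ E * ∑ s ∈ Tup J z y, NBr r cls κ s * ∏ j, gw 1 N (s j) :=
          mul_le_mul_of_nonneg_right h2 hn0
      _ ≤ E * (|C'| * ((1 + Real.log y) ^ e * (Real.log y) ^ N)) :=
          mul_le_mul_of_nonneg_left h1 hE0
      _ = _ := by ring
  intro X y Y k hy0 hzy hyK hk s hs v hv u hu h8 T' hT' hT2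
  have hy00 : y0 ≤ y := by omega
  have hyX : y ≤ X := le_trans (Nat.le_self_pow (by omega) y) hyK
  have hX1 : 1 ≤ X := by omega
  obtain ⟨g, hg⟩ : ∃ g : ℝ, g = (NL (∏ j, s j) (LLs cls κ s ∅) : ℝ) := ⟨_, rfl⟩
  have hg0 : 0 ≤ g := by rw [hg]; exact Nat.cast_nonneg _
  have h1 : ∀ t ∈ T', (qq (FM cls a μ (fv α β (t.1 : ℤ) (t.2 : ℤ)) 0)
        (FM cls a μ (fv α β (t.1 : ℤ) (t.2 : ℤ)) 1) : ℝ) ^ r ≤
      (4 ^ (z + 2)) ^ r * D ^ k * Q ^ (∑ j, (v j).primeFactors.card) * g ^ r := by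
    intro t ht
    have ht1 := hT' ht
    rw [mem_filter, mem_product, mem_Icc, mem_Icc] at ht1
    obtain ⟨hts, htv, _⟩ := hT2 t ht
    have hrk := rank2' J cls a μ α β z hcls ha hμ hB hpa hev hκ0' hκz' hodd hF X y k (t.1 : ℤ)
      (t.2 : ℤ) (Nat.isCoprime_iff_coprime.2 ht1.2.1) ht1.2.2 (fun j => by
        unfold fv
        have h3 := Int.natAbs_add_le (α j * (t.1 : ℤ)) (β j * (t.2 : ℤ))
        rw [Int.natAbs_mul, Int.natAbs_mul, Int.natAbs_natCast, Int.natAbs_natCast] at h3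
        have h4 := single_le_sum (f := fun j => (α j).natAbs + (β j).natAbs)
          (fun _ _ => Nat.zero_le _) (mem_univ j)
        have h5 : t.1 ≤ X := ht1.1.1.2
        have h5' : t.2 ≤ X := ht1.1.2.2
        have h6 : (α j).natAbs + (β j).natAbs ≤ X := by
          have h4' : (α j).natAbs + (β j).natAbs ≤ ∑ j, ((α j).natAbs + (β j).natAbs) := h4
          omega
        calc (α j * (t.1 : ℤ) + β j * (t.2 : ℤ)).natAbs
            ≤ (α j).natAbs * t.1 + (β j).natAbs * t.2 := h3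
          _ ≤ (α j).natAbs * X + (β j).natAbs * X :=
              add_le_add (Nat.mul_le_mul_left _ h5) (Nat.mul_le_mul_left _ h5')
          _ = ((α j).natAbs + (β j).natAbs) * X := by ring
          _ ≤ X * X := Nat.mul_le_mul_right _ h6
          _ = X ^ 2 := by ring) hX1 (by omega) hk
    have hts' : S1 z y (fv α β (t.1 : ℤ) (t.2 : ℤ)) = s := hts
    have htv' : S2 z y (fv α β (t.1 : ℤ) (t.2 : ℤ)) = v := htv
    rw [hts', htv', ← hκdef] at hrk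
    have hr5 : (qq (FM cls a μ (fv α β (t.1 : ℤ) (t.2 : ℤ)) 0)
        (FM cls a μ (fv α β (t.1 : ℤ) (t.2 : ℤ)) 1) : ℝ) ≤
        4 ^ (z + 2) * (16 ^ N) ^ k * 4 ^ (∑ j, (v j).primeFactors.card) * g := by
      rw [hg, hN]
      exact_mod_cast hrk
    have hr6 := pow_le_pow_left₀ (Nat.cast_nonneg _) hr5 r
    refine hr6.trans (le_of_eq ?_)
    rw [mul_pow, mul_pow, mul_pow, hD, hQ]
    rw [← pow_mul ((16 : ℝ) ^ N) k r, ← pow_mul ((16 : ℝ) ^ N) r k, mul_comm k r,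
      ← pow_mul (4 : ℝ) (∑ j, (v j).primeFactors.card) r,
      ← pow_mul (4 : ℝ) r, mul_comm (∑ j, (v j).primeFactors.card) r]
  obtain ⟨W, hW⟩ : ∃ W : ℝ, W = C * X ^ 2 * (∏ j, gw 1 N (s j)) *
        (∏ j, gw 1 N (v j) / v j) * (∏ j, 1 / (u j : ℝ)) / (Real.log y) ^ N := ⟨_, rfl⟩
  have h3 : (T'.card : ℝ) ≤ W := by
    rw [hW, hN]
    refine le_trans ?_ (hcn X y Y hy00 hzy hyK s hs v hv u hu h8)
    have h4 : T' ⊆ (Icc 1 X ×ˢ Icc 1 X).filter (fun t : ℕ × ℕ => t.1.Coprime t.2 ∧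
        S1 z y (fv α β (t.1 : ℤ) (t.2 : ℤ)) = s ∧ S2 z y (fv α β (t.1 : ℤ) (t.2 : ℤ)) = v ∧
        ∀ j, (u j : ℤ) ∣ fv α β (t.1 : ℤ) (t.2 : ℤ) j) := by
      intro t ht
      have ht1 := hT' ht
      rw [mem_filter] at ht1
      rw [mem_filter]
      exact ⟨ht1.1, ht1.2.1, (hT2 t ht).1, (hT2 t ht).2.1, (hT2 t ht).2.2⟩
    exact_mod_cast card_le_card h4
  calc ∑ t ∈ T', (qq (FM cls a μ (fv α β (t.1 : ℤ) (t.2 : ℤ)) 0)
            (FM cls a μ (fv α β (t.1 : ℤ) (t.2 : ℤ)) 1) : ℝ) ^ r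
      ≤ ∑ _t ∈ T', (4 ^ (z + 2)) ^ r * D ^ k * Q ^ (∑ j, (v j).primeFactors.card) * g ^ r :=
        sum_le_sum h1
    _ = (T'.card : ℝ) *
          ((4 ^ (z + 2)) ^ r * D ^ k * Q ^ (∑ j, (v j).primeFactors.card) * g ^ r) := by
        rw [sum_const, nsmul_eq_mul]
    _ ≤ W * ((4 ^ (z + 2)) ^ r * D ^ k * Q ^ (∑ j, (v j).primeFactors.card) * g ^ r) :=
        mul_le_mul_of_nonneg_right h3 (by positivity)
    _ = _ := by
        have e1 : NBr r cls κ s = g ^ r := by rw [nbr_eq hcls, hg]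
        have e2 : (∏ j, Q ^ (v j).primeFactors.card * (gw 1 N (v j) / v j)) =
            Q ^ (∑ j, (v j).primeFactors.card) * ∏ j, (gw 1 N (v j) / v j) := by
          rw [prod_mul_distrib, prod_pow_eq_pow_sum]
        rw [← hN, e1, e2, hW]
        ring

end Pool.Agent.U214.T6
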