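import Mathlib
import Pool.Agent.U214.T6.Avg
import Pool.Agent.U409.SH.Ht

/-!
# All moments of `2 ^ rank * #Ш[2]` over the curves with a subgroup `Z/2 x Z/4` or `Z/2 x Z/6`

Adapted from `Pool.Agent.U409.SH.Fam`, after `Pool.Agent.W307.RT.Fam`, `Box`.
-/

set_option autoImplicit false

namespace Pool.Agent.U214.T6

open Finset Pool.Agent.W262.RK Pool.Agent.W307.RT
open Pool.Agent.U409.SH

variable {J : Type} [Fintype J] [DecidableEq J]

/-- the average over the box -/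
lemma famR {r : ℕ} (hr : 1 ≤ r) {e' : ℝ} (cls : J → Fin 4) (a : Fin 3 → ℤ) (μ : J → ℕ) (α β : J → ℤ)
    (hcls : ∀ j, cls j ≠ 3) (ha : ∀ k, a k ≠ 0) (hμ : ∀ j, 1 ≤ μ j) (hα : ∀ j, α j ≠ 0)
    (hres : ∀ j l, j ≠ l → Res α β j l ≠ 0) (hev : ∀ k, Even (∑ l ∈ fc cls k, μ l))
    (hodd : ∀ j, Odd (μ j) ∨ IsSquare (kapM cls a μ α β j))
    (hid : ∀ u v : ℤ, FM cls a μ (fv α β u v) 0 - FM cls a μ (fv α β u v) 1 =
      FM cls a μ (fv α β u v) 2)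
    (hE : ExJ r cls e')
    (q : ℕ) (M N : ℤ → ℤ → ℤ) (hM : ∀ u v, FM cls a μ (fv α β u v) 0 = -(M u (v + q * u)))
    (hN : ∀ u v, FM cls a μ (fv α β u v) 1 = -(N u (v + q * u))) :
    ∃ C : ℝ, 0 ≤ C ∧ ∀ T : ℕ, 1 ≤ T → ∑ t ∈ (Box T).filter (fun t : ℤ × ℤ =>
      IsCoprime t.1 t.2 ∧ M t.1 t.2 ≠ 0 ∧ N t.1 t.2 ≠ 0 ∧ M t.1 t.2 ≠ N t.1 t.2),
      (qq (-(M t.1 t.2)) (-(N t.1 t.2)) : ℝ) ^ r ≤
        C * ((T : ℝ) ^ 2 * (1 + Real.log T) ^ e') := by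
  classical
  have he' := hE.nn
  set g : ℤ × ℤ → ℝ := fun t => if IsCoprime t.1 t.2 ∧ M t.1 (t.2 + q * t.1) ≠ 0 ∧
    N t.1 (t.2 + q * t.1) ≠ 0 ∧ M t.1 (t.2 + q * t.1) ≠ N t.1 (t.2 + q * t.1) then
    (qq (-(M t.1 (t.2 + q * t.1))) (-(N t.1 (t.2 + q * t.1))) : ℝ) ^ r else 0 with hg
  have hg0 : ∀ t, 0 ≤ g t := by
    intro t
    rw [hg]
    simp only
    split_ifs
    · positivity
    · exact le_rfl
  have hgc : ∀ t, g t ≠ 0 → IsCoprime t.1 t.2 := by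
    intro t ht
    by_contra h
    apply ht
    rw [hg]
    simp only
    rw [if_neg (fun h' => h h'.1)]
  have hquad : ∀ e ∈ sgs, ∃ C : ℝ, ∀ X : ℕ, 1 ≤ X → ∑ t ∈ Icc 1 X ×ˢ Icc 1 X,
      g (e.1 * ((t.1 : ℕ) : ℤ), e.2 * ((t.2 : ℕ) : ℤ)) ≤ C * ((X : ℝ) ^ 2 * (1 + Real.log X) ^ e') := by
    intro e he
    have he' := mem_sgs.1 he
    have he1 : e.1 ≠ 0 := by rcases he'.1 with h | h <;> rw [h] <;> norm_num
    have he2 : e.2 ≠ 0 := by rcases he'.2 with h | h <;> rw [h] <;> norm_num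
    have hk := fun j => kapM_sign cls a μ α β hev he j
    obtain ⟨C, hC⟩ := avgR hr cls a μ (fun j => e.1 * α j) (fun j => e.2 * β j) hcls ha hμ
      (fun j => mul_ne_zero he1 (hα j))
      (fun j l hjl => by
        rw [Res_sign]
        exact mul_ne_zero (mul_ne_zero he1 he2) (hres j l hjl)) hev
      (fun j => by rw [hk j]; exact hodd j)
      (fun u v => by simp only [fv_sign]; exact hid _ _) hE
    refine ⟨C, fun X hX => le_trans ?_ (hC X hX)⟩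
    rw [sum_filter]
    apply sum_le_sum
    intro t _
    rw [hg]
    simp only
    by_cases h : IsCoprime (e.1 * ((t.1 : ℕ) : ℤ)) (e.2 * ((t.2 : ℕ) : ℤ)) ∧
        M (e.1 * t.1) (e.2 * t.2 + q * (e.1 * t.1)) ≠ 0 ∧
        N (e.1 * t.1) (e.2 * t.2 + q * (e.1 * t.1)) ≠ 0 ∧
        M (e.1 * t.1) (e.2 * t.2 + q * (e.1 * t.1)) ≠ N (e.1 * t.1) (e.2 * t.2 + q * (e.1 * t.1))
    · rw [if_pos h, fv_sign, hM, hN, if_pos]
      refine ⟨?_, ?_⟩
      · have h1 := h.1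
        rw [Int.isCoprime_iff_gcd_eq_one] at h1
        have h2 : Int.gcd (e.1 * ((t.1 : ℕ) : ℤ)) (e.2 * ((t.2 : ℕ) : ℤ)) = Nat.gcd t.1 t.2 := by
          rcases he'.1 with h3 | h3 <;> rcases he'.2 with h4 | h4 <;> rw [h3, h4] <;> simp
        rw [h2] at h1
        exact h1
      · apply fv_ne_zero hcls hμ (a := a)
        have b0 := hM (e.1 * t.1) (e.2 * t.2)
        have b1 := hN (e.1 * t.1) (e.2 * t.2)
        have b2 := hid (e.1 * t.1) (e.2 * t.2)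
        intro k
        fin_cases k
        · change FM cls a μ _ 0 ≠ 0
          rw [b0]
          exact neg_ne_zero.2 h.2.1
        · change FM cls a μ _ 1 ≠ 0
          rw [b1]
          exact neg_ne_zero.2 h.2.2.1
        · change FM cls a μ _ 2 ≠ 0
          rw [← b2, b0, b1]
          intro h5
          exact h.2.2.2 (by linarith)
    · rw [if_neg h]
      split_ifs
      · positivity
      · exact le_rfl
  choose! Ce hCe using hquad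
  set D : ℝ := g (0, 1) + g (0, -1) + g (1, 0) + g (-1, 0) with hD
  have hD0 : 0 ≤ D := by
    have h1 := hg0 (0, 1)
    have h2 := hg0 (0, -1)
    have h3 := hg0 (1, 0)
    have h4 := hg0 (-1, 0)
    rw [hD]
    linarith
  have hS0 : 0 ≤ ∑ e ∈ sgs, |Ce e| := sum_nonneg fun _ _ => abs_nonneg _
  obtain ⟨lq, hlq⟩ : ∃ lq : ℝ, lq = 1 + Real.log ((q + 1 : ℕ) : ℝ) := ⟨_, rfl⟩
  have hlq1 : 1 ≤ lq := by
    have := Real.log_natCast_nonneg (q + 1)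
    linarith
  refine ⟨(∑ e ∈ sgs, |Ce e| + D) * (((q + 1 : ℕ) : ℝ) ^ 2 * lq ^ e'), by positivity,
    fun T hT => ?_⟩
  have h1 := box_shift g hg0 q T
  have h2 := box_le g hg0 hgc ((q + 1) * T)
  have hX1 : 1 ≤ (q + 1) * T := Nat.mul_pos (Nat.succ_pos q) hT
  obtain ⟨Y, hY⟩ : ∃ Y : ℝ, Y = (((q + 1) * T : ℕ) : ℝ) ^ 2 *
      (1 + Real.log (((q + 1) * T : ℕ) : ℝ)) ^ e' := ⟨_, rfl⟩
  have hT1 : (1 : ℝ) ≤ T := by exact_mod_cast hT
  have hlT : 0 ≤ Real.log T := Real.log_natCast_nonneg T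
  have hlY : 0 ≤ Real.log (((q + 1) * T : ℕ) : ℝ) := Real.log_natCast_nonneg _
  have hY1 : 1 ≤ Y := by
    have h6 : (1 : ℝ) ≤ (((q + 1) * T : ℕ) : ℝ) := by exact_mod_cast hX1
    rw [hY]
    exact one_le_mul_of_one_le_of_one_le (one_le_pow₀ h6) (Real.one_le_rpow (by linarith) he')
  have hY2 : Y ≤ (((q + 1 : ℕ) : ℝ) ^ 2 * lq ^ e') * ((T : ℝ) ^ 2 * (1 + Real.log T) ^ e') := by
    have hq0 : (((q + 1 : ℕ) : ℝ)) ≠ 0 := by positivity
    have h6 : Real.log (((q + 1) * T : ℕ) : ℝ) = Real.log ((q + 1 : ℕ) : ℝ) + Real.log T := by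
      rw [Nat.cast_mul, Real.log_mul hq0 (by positivity)]
    have h7 : (1 + Real.log (((q + 1) * T : ℕ) : ℝ)) ^ e' ≤ lq ^ e' * (1 + Real.log T) ^ e' := by
      rw [← Real.mul_rpow (by linarith) (by linarith)]
      refine Real.rpow_le_rpow (by linarith) ?_ he'
      rw [h6, hlq]
      have := Real.log_natCast_nonneg (q + 1)
      nlinarith
    rw [hY]
    calc _ ≤ (((q + 1) * T : ℕ) : ℝ) ^ 2 * (lq ^ e' * (1 + Real.log T) ^ e') :=
          mul_le_mul_of_nonneg_left h7 (by positivity)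
      _ = _ := by
          push_cast
          ring
  have h3 : ∑ e ∈ sgs, ∑ t ∈ Icc 1 ((q + 1) * T) ×ˢ Icc 1 ((q + 1) * T),
      g (e.1 * ((t.1 : ℕ) : ℤ), e.2 * ((t.2 : ℕ) : ℤ)) ≤
      (∑ e ∈ sgs, |Ce e|) * Y := by
    rw [sum_mul]
    apply sum_le_sum
    intro e he
    rw [hY]
    refine (hCe e he _ hX1).trans ?_
    exact mul_le_mul_of_nonneg_right (le_abs_self _)
      (mul_nonneg (by positivity) (Real.rpow_nonneg (by linarith) _))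
  have h4 : D ≤ D * Y := le_mul_of_one_le_right hD0 hY1
  have h5 : ∑ t ∈ (Box T).filter (fun t : ℤ × ℤ =>
      IsCoprime t.1 t.2 ∧ M t.1 t.2 ≠ 0 ∧ N t.1 t.2 ≠ 0 ∧ M t.1 t.2 ≠ N t.1 t.2),
      (qq (-(M t.1 t.2)) (-(N t.1 t.2)) : ℝ) ^ r =
      ∑ t ∈ Box T, g (t.1, t.2 - q * t.1) := by
    rw [sum_filter]
    apply sum_congr rfl
    intro t _
    have h6 : t.2 - q * t.1 + q * t.1 = t.2 := by ring
    have h7 : IsCoprime t.1 (t.2 - q * t.1) ↔ IsCoprime t.1 t.2 := by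
      have : t.2 - q * t.1 = t.2 + (-(q : ℤ)) * t.1 := by ring
      rw [this]
      exact IsCoprime.add_mul_right_right_iff
    rw [hg]
    simp only
    rw [h6]
    simp only [h7]
  rw [h5]
  calc _ ≤ _ := h1
    _ ≤ _ := h2
    _ ≤ (∑ e ∈ sgs, |Ce e|) * Y + D * Y := add_le_add h3 h4
    _ = (∑ e ∈ sgs, |Ce e| + D) * Y := by ring
    _ ≤ (∑ e ∈ sgs, |Ce e| + D) * ((((q + 1 : ℕ) : ℝ) ^ 2 * lq ^ e') *
        ((T : ℝ) ^ 2 * (1 + Real.log T) ^ e')) := mul_le_mul_of_nonneg_left hY2 (by linarith)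
    _ = _ := by ring

/-- from the box to the curves -/
lemma finalR {r : ℕ} {e' : ℝ} (he' : 0 ≤ e') {m k : ℕ} {M N : ℤ → ℤ → ℤ} (hk : 1 ≤ k)
    (hP : PAR' m k M N) (hL : LOW m k)
    (hbox : ∃ C : ℝ, 0 ≤ C ∧ ∀ T : ℕ, 1 ≤ T → ∑ t ∈ (Box T).filter (fun t : ℤ × ℤ =>
      IsCoprime t.1 t.2 ∧ M t.1 t.2 ≠ 0 ∧ N t.1 t.2 ≠ 0 ∧ M t.1 t.2 ≠ N t.1 t.2),
      (qq (-(M t.1 t.2)) (-(N t.1 t.2)) : ℝ) ^ r ≤
        C * ((T : ℝ) ^ 2 * (1 + Real.log T) ^ e')) :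
    ∃ C : ℝ, ∀ H : ℕ, 1 ≤ H → ∑ c ∈ Cv m H,
      (Qn (Sh c.1 c.2) : ℝ) ^ r ≤ C * ((Cv m H).card * (1 + Real.log H) ^ e') := by
  classical
  obtain ⟨C0', F, hF⟩ := hP
  obtain ⟨c, C1, T0, hc, hlow⟩ := hL
  obtain ⟨C, hC, hb⟩ := hbox
  set C0 := C0' + 1 with hC0
  have hF' : ∀ H : ℕ, ∀ x ∈ Cv m H, (F x).1.natAbs ^ k ≤ C0 * H ∧ (F x).2.natAbs ^ k ≤ C0 * H := by
    intro H x hx
    obtain ⟨_, _, _, _, h1, h2, _, _⟩ := (hF H).2 x hx
    have : C0' * H ≤ C0 * H := Nat.mul_le_mul_right _ (by omega)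
    exact ⟨h1.trans this, h2.trans this⟩
  set D := C0 * C1 + 1 with hD
  have hD1 : 1 ≤ D := by omega
  -- the sum is at most `C T ^ 2`
  have hsum : ∀ H T : ℕ, 1 ≤ T → (∀ x ∈ Cv m H, (F x).1.natAbs ≤ T ∧ (F x).2.natAbs ≤ T) →
      ∑ x ∈ Cv m H, (Qn (Sh x.1 x.2) : ℝ) ^ r ≤
        C * ((T : ℝ) ^ 2 * (1 + Real.log T) ^ e') := by
    intro H T hT hx
    refine le_trans ?_ (hb T hT)
    obtain ⟨hinj, h2⟩ := hF H
    have h3 : ∑ x ∈ Cv m H, (Qn (Sh x.1 x.2) : ℝ) ^ r =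
        ∑ t ∈ (Cv m H).image F, (qq (-(M t.1 t.2)) (-(N t.1 t.2)) : ℝ) ^ r := by
      rw [sum_image hinj]
      apply sum_congr rfl
      intro x hx'
      obtain ⟨_, _, _, _, _, _, _, h4⟩ := h2 x hx'
      rw [h4, qq_eq]
    rw [h3]
    apply sum_le_sum_of_subset_of_nonneg
    · intro t ht
      obtain ⟨x, hx', rfl⟩ := mem_image.1 ht
      obtain ⟨a1, a2, a3, a4, _, _, _, _⟩ := h2 x hx'
      rw [mem_filter, mem_Box]
      exact ⟨hx x hx', a1, a2, a3, a4⟩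
    · intro t _ _
      positivity
  obtain ⟨L1, hL1⟩ : ∃ L1 : ℝ, L1 = 1 + Real.log ((D * (T0 + 1) : ℕ) : ℝ) := ⟨_, rfl⟩
  have hL11 : 1 ≤ L1 := by
    have := Real.log_natCast_nonneg (D * (T0 + 1))
    linarith
  obtain ⟨L2, hL2⟩ : ∃ L2 : ℝ, L2 = 1 + Real.log (C0 : ℝ) := ⟨_, rfl⟩
  have hL21 : 1 ≤ L2 := by
    have := Real.log_natCast_nonneg C0
    linarith
  refine ⟨C * (((D * (T0 + 1) : ℕ) : ℝ) ^ 2 * L1 ^ e') + C * (2 * (D : ℝ)) ^ 2 / c * L2 ^ e',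
    fun H hH => ?_⟩
  have hH1 : (1 : ℝ) ≤ H := by exact_mod_cast hH
  have hlH : 0 ≤ Real.log H := Real.log_natCast_nonneg H
  have hLH : 1 ≤ (1 + Real.log (H : ℝ)) ^ e' := Real.one_le_rpow (by linarith) he'
  set K := (Cv m H).card with hK
  by_cases hK0 : K = 0
  · have : Cv m H = ∅ := card_eq_zero.1 hK0
    rw [this, sum_empty, hK0]
    simp
  have hK1 : (1 : ℝ) ≤ K := by exact_mod_cast Nat.one_le_iff_ne_zero.2 hK0
  have hq0 : 0 ≤ C * (2 * (D : ℝ)) ^ 2 / c * L2 ^ e' := by positivity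
  have hr0 : 0 ≤ C * (((D * (T0 + 1) : ℕ) : ℝ) ^ 2 * L1 ^ e') := by positivity
  have hKL : 1 ≤ K * (1 + Real.log (H : ℝ)) ^ e' :=
    one_le_mul_of_one_le_of_one_le hK1 hLH
  set T := Nat.findGreatest (fun t => t ^ k ≤ C0 * H) (C0 * H) with hT
  have hle : ∀ x : ℕ, x ^ k ≤ C0 * H → x ≤ T := by
    intro x hx
    apply Nat.le_findGreatest
    · exact (Nat.le_self_pow (by omega) x).trans hx
    · exact hx
  have hTk : T ^ k ≤ C0 * H := by
    have : (fun t => t ^ k ≤ C0 * H) T :=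
      Nat.findGreatest_spec (P := fun t => t ^ k ≤ C0 * H) (Nat.zero_le _)
        (by rw [zero_pow (by omega)]; exact Nat.zero_le _)
    exact this
  have hxT : ∀ x ∈ Cv m H, (F x).1.natAbs ≤ T ∧ (F x).2.natAbs ≤ T := fun x hx =>
    ⟨hle _ (hF' H x hx).1, hle _ (hF' H x hx).2⟩
  rcases Nat.lt_or_ge T (D * (T0 + 1)) with hlt | hge
  · have h1 := hsum H (D * (T0 + 1)) (Nat.mul_pos hD1 (Nat.succ_pos _)) fun x hx =>
      ⟨(hxT x hx).1.trans hlt.le, (hxT x hx).2.trans hlt.le⟩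
    rw [← hL1] at h1
    calc _ ≤ C * (((D * (T0 + 1) : ℕ) : ℝ) ^ 2 * L1 ^ e') := h1
      _ ≤ C * (((D * (T0 + 1) : ℕ) : ℝ) ^ 2 * L1 ^ e') * (K * (1 + Real.log (H : ℝ)) ^ e') :=
        le_mul_of_one_le_right hr0 hKL
      _ ≤ _ := by
        apply mul_le_mul_of_nonneg_right _ (by linarith)
        linarith
  · have hT1 : 1 ≤ T := (Nat.mul_pos hD1 (Nat.succ_pos _)).trans_le hge
    have h1 := hsum H T hT1 hxT
    set T' := T / D with hT'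
    have hT'0 : T0 + 1 ≤ T' := by
      rw [hT', Nat.le_div_iff_mul_le hD1, mul_comm]
      exact hge
    have h2 : T' * D ≤ T := Nat.div_mul_le_self T D
    have h3 : C1 * T' ^ k ≤ H := by
      have a1 : (T' * D) ^ k ≤ C0 * H := (Nat.pow_le_pow_left h2 k).trans hTk
      rw [mul_pow] at a1
      have a2 : D ≤ D ^ k := Nat.le_self_pow (by omega) D
      have a3 : T' ^ k * (C0 * C1) ≤ C0 * H :=
        (Nat.mul_le_mul_left _ (by omega : C0 * C1 ≤ D ^ k)).trans a1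
      have a4 : C0 * (C1 * T' ^ k) ≤ C0 * H := by
        calc C0 * (C1 * T' ^ k) = T' ^ k * (C0 * C1) := by ring
          _ ≤ _ := a3
      exact Nat.le_of_mul_le_mul_left a4 (by omega)
    have h4 := hlow T' H (by omega) h3
    have h5 : T ≤ 2 * D * T' := by
      have a1 : T < D * (T' + 1) := by
        rw [mul_comm]
        exact Nat.lt_mul_of_div_lt (by rw [← hT']; omega) hD1
      have a2 : D * (T' + 1) ≤ 2 * D * T' := by nlinarith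
      omega
    have h6 : (T : ℝ) ≤ 2 * D * T' := by exact_mod_cast h5
    have hlT : 0 ≤ Real.log T := Real.log_natCast_nonneg T
    have h7 : (1 + Real.log (T : ℝ)) ^ e' ≤ L2 ^ e' * (1 + Real.log (H : ℝ)) ^ e' := by
      rw [← Real.mul_rpow (by linarith) (by linarith)]
      refine Real.rpow_le_rpow (by linarith) ?_ he'
      have a1 : T ≤ C0 * H := (Nat.le_self_pow (by omega) T).trans hTk
      have a2 : (T : ℝ) ≤ C0 * H := by exact_mod_cast a1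
      have a3 : Real.log (T : ℝ) ≤ Real.log (C0 : ℝ) + Real.log (H : ℝ) := by
        rw [← Real.log_mul (by rw [hC0]; positivity) (by linarith)]
        exact Real.log_le_log (by exact_mod_cast hT1) a2
      have a4 := Real.log_natCast_nonneg C0
      rw [hL2]
      nlinarith
    calc _ ≤ C * ((T : ℝ) ^ 2 * (1 + Real.log (T : ℝ)) ^ e') := h1
      _ ≤ C * ((2 * D * T') ^ 2 * (L2 ^ e' * (1 + Real.log (H : ℝ)) ^ e')) := by
        apply mul_le_mul_of_nonneg_left _ hC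
        exact mul_le_mul (pow_le_pow_left₀ (Nat.cast_nonneg T) h6 2) h7
          (Real.rpow_nonneg (by linarith) _) (by positivity)
      _ = C * (2 * (D : ℝ)) ^ 2 / c * L2 ^ e' * ((c * (T' : ℝ) ^ 2) *
          (1 + Real.log (H : ℝ)) ^ e') := by
        field_simp
      _ ≤ C * (2 * (D : ℝ)) ^ 2 / c * L2 ^ e' * (K * (1 + Real.log (H : ℝ)) ^ e') :=
        mul_le_mul_of_nonneg_left (mul_le_mul_of_nonneg_right h4 (by linarith)) hq0
      _ ≤ _ := by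
        apply mul_le_mul_of_nonneg_right _ (by linarith)
        linarith

end Pool.Agent.U214.T6
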