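import Mathlib
import Pool.Agent.U214.T6.Fam

/-!
# The exponents, and the curves ordered by height
-/

set_option autoImplicit false

namespace Pool.Agent.U214.T6

open Finset Pool.Agent.W262.RK Pool.Agent.W307.RT
open Pool.Agent.U409.SH

/-- the exponent of the logarithm -/
noncomputable def expo (m r : ℕ) : ℝ :=
  if m = 4 then 2 * ((2 : ℝ) ^ r - 1) ^ 2 / 2 ^ r
  else 2 * ((2 : ℝ) ^ r - 1) * ((2 : ℝ) ^ r - 2) / 2 ^ r

lemma two_le {r : ℕ} (hr : 1 ≤ r) : (2 : ℝ) ≤ 2 ^ r := by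
  calc (2 : ℝ) = 2 ^ 1 := (pow_one 2).symm
    _ ≤ 2 ^ r := pow_le_pow_right₀ (by norm_num) hr

lemma ex6 {r : ℕ} (hr : 1 ≤ r) : ExJ r c6 (expo 6 r) := by
  have h2 := two_le hr
  obtain ⟨q, hq⟩ : ∃ q : ℝ, q = 2 ^ r := ⟨_, rfl⟩
  rw [← hq] at h2
  have hq0 : 0 < q := by linarith
  have e0 : (univ.filter (fun j => c6 j = 0)).card = 2 := by decide
  have e1 : (univ.filter (fun j => c6 j = 1)).card = 2 := by decide
  have e2 : (univ.filter (fun j => c6 j = 2)).card = 2 := by decide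
  have he : expo 6 r = (q - 1) * (2 - (2 + 2) / q) := by
    unfold expo
    rw [if_neg (by norm_num), ← hq]
    field_simp
    ring
  have hnn : 0 ≤ (q - 1) * (2 - (2 + 2) / q) := by
    apply mul_nonneg (by linarith)
    rw [sub_nonneg, div_le_iff₀ hq0]
    linarith
  refine ⟨?_, ?_, ?_, ?_⟩
  · rw [he]
    exact hnn
  all_goals
    rw [e0, e1, e2, he, ← hq]
    push_cast
    exact le_rfl

lemma ex4 {r : ℕ} (hr : 1 ≤ r) : ExJ r c4 (expo 4 r) := by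
  have h2 := two_le hr
  obtain ⟨q, hq⟩ : ∃ q : ℝ, q = 2 ^ r := ⟨_, rfl⟩
  rw [← hq] at h2
  have hq0 : 0 < q := by linarith
  have e0 : (univ.filter (fun j => c4 j = 0)).card = 1 := by decide
  have e1 : (univ.filter (fun j => c4 j = 1)).card = 1 := by decide
  have e2 : (univ.filter (fun j => c4 j = 2)).card = 2 := by decide
  have he : expo 4 r = (q - 1) * (2 - (1 + 1) / q) := by
    unfold expo
    rw [if_pos rfl, ← hq]
    field_simp
    ring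
  have hnn : 0 ≤ (q - 1) * (2 - (1 + 1) / q) := by
    apply mul_nonneg (by linarith)
    rw [sub_nonneg, div_le_iff₀ hq0]
    linarith
  have hle : (q - 1) * (1 - (1 + 2) / q) ≤ (q - 1) * (2 - (1 + 1) / q) := by
    apply mul_le_mul_of_nonneg_left _ (by linarith)
    have : (1 : ℝ) / q ≤ 1 := by
      rw [div_le_one hq0]
      linarith
    have e : (1 + 2) / q = (1 + 1) / q + 1 / q := by
      rw [← add_div]
      norm_num
    have : 0 < 1 / q := by positivity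
    rw [e]
    linarith
  refine ⟨?_, ?_, ?_, ?_⟩
  · rw [he]
    exact hnn
  · rw [e0, e1, e2, he, ← hq]
    push_cast
    exact hle
  · rw [e0, e1, e2, he, ← hq]
    push_cast
    exact hle
  · rw [e0, e1, e2, he, ← hq]
    push_cast
    exact le_rfl

theorem boxR6 {r : ℕ} (hr : 1 ≤ r) : ∃ C : ℝ, 0 ≤ C ∧ ∀ T : ℕ, 1 ≤ T →
    ∑ t ∈ (Box T).filter (fun t : ℤ × ℤ =>
      IsCoprime t.1 t.2 ∧ M6 t.1 t.2 ≠ 0 ∧ N6 t.1 t.2 ≠ 0 ∧ M6 t.1 t.2 ≠ N6 t.1 t.2),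
      (qq (-(M6 t.1 t.2)) (-(N6 t.1 t.2)) : ℝ) ^ r ≤
        C * ((T : ℝ) ^ 2 * (1 + Real.log T) ^ expo 6 r) := by
  refine famR hr c6 (fun _ => -1) m6 α6 β6 (by decide) (by decide) (by decide) (by decide)
    (by decide) (by decide) (fun j => Or.inl (by revert j; decide)) (fun u v => ?_) (ex6 hr) 3
    M6 N6 (fun u v => by rw [FM60]; norm_num) (fun u v => by rw [FM61]; norm_num)
  rw [FM60, FM61, FM62]
  ring

theorem boxR4 {r : ℕ} (hr : 1 ≤ r) : ∃ C : ℝ, 0 ≤ C ∧ ∀ T : ℕ, 1 ≤ T →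
    ∑ t ∈ (Box T).filter (fun t : ℤ × ℤ =>
      IsCoprime t.1 t.2 ∧ M4 t.1 t.2 ≠ 0 ∧ N4 t.1 t.2 ≠ 0 ∧ M4 t.1 t.2 ≠ N4 t.1 t.2),
      (qq (-(M4 t.1 t.2)) (-(N4 t.1 t.2)) : ℝ) ^ r ≤
        C * ((T : ℝ) ^ 2 * (1 + Real.log T) ^ expo 4 r) := by
  refine famR hr c4 (fun _ => -1) m4 α4 β4 (by decide) (by decide) (by decide) (by decide)
    (by decide) (by decide) (fun j => ?_) (fun u v => ?_) (ex4 hr) 2 M4 N4 FM40 FM41
  · revert j
    decide
  · rw [FM40, FM41, FM42]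
    ring

/-- **the moments over the curves of bounded height** -/
theorem momT {m : ℕ} (hm : m = 4 ∨ m = 6) {r : ℕ} (hr : 1 ≤ r) :
    ∃ C : ℝ, ∀ H : ℕ, 1 ≤ H → ∑ c ∈ Cv m H, (Qn (Sh c.1 c.2) : ℝ) ^ r ≤
      C * ((Cv m H).card * (1 + Real.log H) ^ expo m r) := by
  rcases hm with rfl | rfl
  · exact finalR (ex4 hr).nn (by norm_num) par4' Pool.Agent.W29.RT.low4 (boxR4 hr)
  · exact finalR (ex6 hr).nn (by norm_num) par6' Pool.Agent.W376.RTL.low6 (boxR6 hr)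

end Pool.Agent.U214.T6
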